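import Pool.Agent.Q41.GT.Stm6
import Pool.Agent.Y221.PB.Hgt

/-!
Specialisation of a rational map with a large stable set.
-/

set_option autoImplicit false

namespace Pool.Agent.Q209.GT

open Polynomial
open Pool.Agent.Q41.SU (Stab)
open Pool.Agent.Q41.GT (crs)

section ring

variable {B L E : Type} [CommRing B] [Field L] [Field E] (α : B →+* L) (β : B →+* E)

theorem unit_ne (hα : Function.Injective α) {b : B} (hb : α b ≠ 0)
    (hi : (α b)⁻¹ ∈ Set.range α) : β b ≠ 0 := by
  obtain ⟨c, hc⟩ := hi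
  have h1 : b * c = 1 := hα (by rw [map_mul, hc, mul_inv_cancel₀ hb, map_one])
  intro h0
  have h2 := congrArg β h1
  rw [map_mul, h0, zero_mul, map_one] at h2
  exact zero_ne_one h2

/-- the data which must specialise -/
def Dat (p q u v : L[X]) (P : Finset L) : Set L :=
  (↑p.coeffs ∪ ↑q.coeffs ∪ ↑u.coeffs ∪ ↑v.coeffs ∪ ↑P ∪ {q.leadingCoeff⁻¹} : Set L) ∪
    ((fun z => (q.eval z)⁻¹) '' (↑P : Set L)) ∪
    ((fun z : L × L => (z.1 - z.2)⁻¹) '' ((↑P : Set L) ×ˢ (↑P : Set L)))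

theorem dat_finite (p q u v : L[X]) (P : Finset L) : (Dat p q u v P).Finite := by
  unfold Dat
  refine Set.Finite.union (Set.Finite.union ?_ ((Finset.finite_toSet _).image _))
    (((Finset.finite_toSet _).prod (Finset.finite_toSet _)).image _)
  refine Set.Finite.union (Set.Finite.union (Set.Finite.union (Set.Finite.union
    (Set.Finite.union ?_ ?_) ?_) ?_) ?_) (Set.finite_singleton _) <;>
  exact Finset.finite_toSet _

theorem lift_poly {p : L[X]} (h : ∀ c ∈ p.coeffs, c ∈ Set.range α) :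
    ∃ f : B[X], f.map α = p := by
  rw [← Polynomial.mem_lifts, Polynomial.lifts_iff_coeff_lifts]
  intro i
  by_cases h0 : p.coeff i = 0
  · rw [h0]
    exact ⟨0, map_zero α⟩
  · exact h _ (Polynomial.coeff_mem_coeffs h0)

theorem stab_trans (hα : Function.Injective α) {p q u v : L[X]} {d : ℕ} (hd : 1 ≤ d)
    (hp : p.natDegree ≤ d)
    (hq : q.natDegree = d) (hc : u * p + v * q = 1) {P : Finset L} (hS : Stab p q P)
    (h : ∀ a ∈ Dat p q u v P, a ∈ Set.range α) :
    ∃ (p' q' : E[X]) (P' : Finset E), p'.natDegree ≤ d ∧ q'.natDegree = d ∧ IsCoprime p' q' ∧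
      Stab p' q' P' ∧ P'.card = P.card ∧ ∀ c ∈ crs P, ∃ b, α b = c ∧ β b ∈ crs P' := by
  classical
  obtain ⟨p0, hp0⟩ := lift_poly α (p := p) fun c hc => h c (by simp only [Dat, Set.mem_union]; tauto)
  obtain ⟨q0, hq0⟩ := lift_poly α (p := q) fun c hc => h c (by simp only [Dat, Set.mem_union]; tauto)
  obtain ⟨u0, hu0⟩ := lift_poly α (p := u) fun c hc => h c (by simp only [Dat, Set.mem_union]; tauto)
  obtain ⟨v0, hv0⟩ := lift_poly α (p := v) fun c hc => h c (by simp only [Dat, Set.mem_union]; tauto)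
  have hP : ∀ z ∈ P, ∃ b, α b = z := fun z hz => h z (by
    simp only [Dat, Set.mem_union]
    have : z ∈ (↑P : Set L) := hz
    tauto)
  have hP' : ∀ z : L, ∃ b, z ∈ P → α b = z := by
    intro z
    by_cases hz : z ∈ P
    · obtain ⟨b, hb⟩ := hP z hz
      exact ⟨b, fun _ => hb⟩
    · exact ⟨0, fun h => absurd h hz⟩
  choose s hs using hP'
  have hne : ∀ z ∈ P, ∀ z' ∈ P, z ≠ z' → β (s z) - β (s z') ≠ 0 := by
    intro z hz z' hz' hzz
    rw [← map_sub]
    have h1 : α (s z - s z') = z - z' := by rw [map_sub, hs z hz, hs z' hz']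
    refine unit_ne α β hα (by rw [h1]; exact sub_ne_zero.2 hzz) ?_
    rw [h1]
    exact h _ (Or.inr ⟨(z, z'), ⟨hz, hz'⟩, rfl⟩)
  have hqz : ∀ z ∈ P, β (q0.eval (s z)) ≠ 0 ∧ α (q0.eval (s z)) = q.eval z := by
    intro z hz
    have h1 : α (q0.eval (s z)) = q.eval z := by
      rw [← hq0, ← Polynomial.eval₂_at_apply, ← Polynomial.eval_map, hs z hz]
    refine ⟨unit_ne α β hα (by rw [h1]; exact (hS z hz).1) ?_, h1⟩
    rw [h1]
    exact h _ (Or.inl (Or.inr ⟨z, hz, rfl⟩))
  have hpz : ∀ z ∈ P, α (p0.eval (s z)) = p.eval z := by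
    intro z hz
    rw [← hp0, ← Polynomial.eval₂_at_apply, ← Polynomial.eval_map, hs z hz]
  refine ⟨p0.map β, q0.map β, P.image fun z => β (s z), ?_, ?_, ?_, ?_, ?_, ?_⟩
  · refine Polynomial.natDegree_map_le.trans ?_
    rw [← Polynomial.natDegree_map_eq_of_injective hα p0, hp0]
    exact hp
  · rw [Polynomial.natDegree_map_of_leadingCoeff_ne_zero]
    · rw [← Polynomial.natDegree_map_eq_of_injective hα q0, hq0]
      exact hq
    · have h1 : α q0.leadingCoeff = q.leadingCoeff := by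
        rw [← hq0, Polynomial.leadingCoeff_map_of_injective hα]
      have h0 : q ≠ 0 := by
        rintro rfl
        rw [Polynomial.natDegree_zero] at hq
        omega
      refine unit_ne α β hα (by rw [h1]; exact Polynomial.leadingCoeff_ne_zero.2 h0) ?_
      rw [h1]
      exact h _ (Or.inl (Or.inl (Or.inr rfl)))
  · refine ⟨u0.map β, v0.map β, ?_⟩
    have h1 : u0 * p0 + v0 * q0 = 1 := by
      apply Polynomial.map_injective α hα
      rw [Polynomial.map_add, Polynomial.map_mul, Polynomial.map_mul, hu0, hp0, hv0, hq0,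
        Polynomial.map_one, hc]
    rw [← Polynomial.map_mul, ← Polynomial.map_mul, ← Polynomial.map_add, h1, Polynomial.map_one]
  · intro z' hz'
    obtain ⟨z, hz, rfl⟩ := Finset.mem_image.1 hz'
    have h1 : (q0.map β).eval (β (s z)) = β (q0.eval (s z)) := by
      rw [Polynomial.eval_map, Polynomial.eval₂_at_apply]
    have h2 : (p0.map β).eval (β (s z)) = β (p0.eval (s z)) := by
      rw [Polynomial.eval_map, Polynomial.eval₂_at_apply]
    rw [h1, h2]
    refine ⟨(hqz z hz).1, Finset.mem_image.2 ⟨_, (hS z hz).2, ?_⟩⟩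
    rw [eq_div_iff (hqz z hz).1, ← map_mul]
    congr 1
    apply hα
    rw [map_mul, hs _ (hS z hz).2, (hqz z hz).2, hpz z hz, div_mul_cancel₀ _ (hS z hz).1]
  · refine Finset.card_image_of_injOn ?_
    intro z hz z' hz' hzz
    by_contra h0
    exact hne z hz z' hz' h0 (sub_eq_zero.2 hzz)
  · rintro c ⟨x0, h0, x1, h1, x2, h2, x, hx, n01, n02, n12, nx2, nx0, rfl⟩
    obtain ⟨i1, hi1⟩ := h _ (Or.inr ⟨(x, x2), ⟨hx, h2⟩, rfl⟩)
    obtain ⟨i2, hi2⟩ := h _ (Or.inr ⟨(x1, x0), ⟨h1, h0⟩, rfl⟩)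
    change α i1 = (x - x2)⁻¹ at hi1
    change α i2 = (x1 - x0)⁻¹ at hi2
    have hx2 : x - x2 ≠ 0 := sub_ne_zero.2 nx2
    have hx1 : x1 - x0 ≠ 0 := sub_ne_zero.2 n01.symm
    have e1 : (s x - s x2) * i1 = 1 := hα (by
      rw [map_mul, map_sub, hs x hx, hs x2 h2, hi1, mul_inv_cancel₀ hx2, map_one])
    have e2 : (s x1 - s x0) * i2 = 1 := hα (by
      rw [map_mul, map_sub, hs x1 h1, hs x0 h0, hi2, mul_inv_cancel₀ hx1, map_one])
    have e1' := congrArg β e1
    have e2' := congrArg β e2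
    rw [map_mul, map_sub, map_one] at e1' e2'
    refine ⟨(s x - s x0) * (s x1 - s x2) * (i1 * i2), ?_, β (s x0), Finset.mem_image_of_mem _ h0,
      β (s x1), Finset.mem_image_of_mem _ h1, β (s x2), Finset.mem_image_of_mem _ h2, β (s x),
      Finset.mem_image_of_mem _ hx, ?_, ?_, ?_, ?_, ?_, ?_⟩
    · rw [map_mul, map_mul, map_mul, map_sub, map_sub, hs x hx, hs x0 h0, hs x1 h1, hs x2 h2,
        hi1, hi2]
      field_simp
    · exact sub_ne_zero.1 (hne _ h0 _ h1 n01)
    · exact sub_ne_zero.1 (hne _ h0 _ h2 n02)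
    · exact sub_ne_zero.1 (hne _ h1 _ h2 n12)
    · exact sub_ne_zero.1 (hne _ hx _ h2 nx2)
    · exact sub_ne_zero.1 (hne _ hx _ h0 nx0)
    · have f1 : β (s x) - β (s x2) ≠ 0 := hne _ hx _ h2 nx2
      have f2 : β (s x1) - β (s x0) ≠ 0 := hne _ h1 _ h0 n01.symm
      rw [eq_div_iff (mul_ne_zero f1 f2), map_mul, map_mul, map_mul, map_sub, map_sub]
      have e3 : (β (s x) - β (s x0)) * (β (s x1) - β (s x2)) * (β i1 * β i2) *
          ((β (s x) - β (s x2)) * (β (s x1) - β (s x0))) =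
          (β (s x) - β (s x0)) * (β (s x1) - β (s x2)) * (((β (s x) - β (s x2)) * β i1) *
            ((β (s x1) - β (s x0)) * β i2)) := by ring
      rw [e3, e1', e2']
      ring

end ring

open Pool.Agent.TH466.QG (graph exists_den)

/-- specialisation as a pair of homomorphisms -/
theorem spec {k L : Type} [Field k] [Field L] [Algebra k L] {σ : Type} {y : σ → L}
    (hy : IntermediateField.adjoin k (Set.range y) = ⊤) {Θ : Set L} (hΘ : Θ.Finite) :
    ∃ H : MvPolynomial σ k, MvPolynomial.aeval y H ≠ 0 ∧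
      ∀ (E : Type) [Field E] [Algebra k E] (z : σ → E),
        (∀ G : MvPolynomial σ k, MvPolynomial.aeval y G = 0 → MvPolynomial.aeval z G = 0) →
        MvPolynomial.aeval z H ≠ 0 →
        ∃ (B : Type) (_ : CommRing B) (_ : Algebra k B) (α : B →ₐ[k] L) (β : B →ₐ[k] E),
          Function.Injective α ∧ (∀ i, ∃ b, α b = y i ∧ β b = z i) ∧
          ∀ θ ∈ Θ, θ ∈ Set.range α := by
  obtain ⟨H, hH, hG⟩ := exists_den hy hΘ
  refine ⟨H, hH, fun E _ _ z hz hzH => ?_⟩
  let α : graph k y z →ₐ[k] L := (AlgHom.fst k L E).comp (graph k y z).val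
  let β : graph k y z →ₐ[k] E := (AlgHom.snd k L E).comp (graph k y z).val
  have hker : ∀ b, α b = 0 → β b = 0 := by
    rintro ⟨⟨a, a'⟩, G, H', h1, h2, h3, h4⟩ h0
    change a = 0 at h0
    change a' = 0
    simp only at h3 h4
    rw [h0, zero_mul] at h3
    rw [hz G h3.symm] at h4
    exact (mul_eq_zero.1 h4).resolve_right h2
  refine ⟨graph k y z, inferInstance, inferInstance, α, β, ?_, ?_, ?_⟩
  · rw [injective_iff_map_eq_zero]
    intro b hb
    exact Subtype.ext (Prod.ext hb (hker b hb))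
  · intro i
    exact ⟨⟨(y i, z i), MvPolynomial.X i, 1, by rw [map_one]; exact one_ne_zero, by
      rw [map_one]; exact one_ne_zero, by simp, by simp⟩, rfl, rfl⟩
  · intro θ hθ
    obtain ⟨G, ha⟩ := hG θ hθ
    refine ⟨⟨(θ, MvPolynomial.aeval z G / MvPolynomial.aeval z H), G, H, hH, hzH, ha, ?_⟩, rfl⟩
    exact div_mul_cancel₀ _ hzH

open scoped IntermediateField.algebraAdjoinAdjoin in
/-- an element algebraic over the field generated by a set satisfies an equation whose coefficients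
are polynomials in the elements of the set -/
theorem alg_eqn {k L : Type} [Field k] [Field L] [Algebra k L] {S : Set L} {y : L}
    (hy : IsAlgebraic (IntermediateField.adjoin k S) y) :
    ∃ (D : ℕ) (g : ℕ → MvPolynomial S k),
      MvPolynomial.aeval (Subtype.val : S → L) (g D) ≠ 0 ∧
      ∑ j ∈ Finset.range (D + 1), MvPolynomial.aeval (Subtype.val : S → L) (g j) * y ^ j = 0 := by
  classical
  obtain ⟨f, hf0, hf⟩ := (IsFractionRing.isAlgebraic_iff (Algebra.adjoin k S)
    (IntermediateField.adjoin k S) L).2 hy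
  have hg : ∀ j, ∃ g : MvPolynomial S k,
      MvPolynomial.aeval (Subtype.val : S → L) g = (f.coeff j : L) := by
    intro j
    have h1 : ∀ a : Algebra.adjoin k S, ∃ g : MvPolynomial S k,
        MvPolynomial.aeval (Subtype.val : S → L) g = (a : L) := by
      rintro ⟨a, ha⟩
      rw [Algebra.adjoin_eq_range] at ha
      obtain ⟨g, hg⟩ := ha
      exact ⟨g, hg⟩
    exact h1 _
  choose g hg using hg
  refine ⟨f.natDegree, g, ?_, ?_⟩
  · rw [hg]
    have h1 : f.coeff f.natDegree ≠ 0 := Polynomial.leadingCoeff_ne_zero.2 hf0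
    intro h2
    exact h1 (Subtype.ext h2)
  · rw [Polynomial.aeval_eq_sum_range] at hf
    rw [← hf]
    refine Finset.sum_congr rfl fun j _ => ?_
    rw [hg, Algebra.smul_def]
    rfl

theorem crs_finite {L : Type} [Field L] (P : Finset L) : (crs P).Finite := by
  classical
  refine ((P ×ˢ P ×ˢ P ×ˢ P).image fun w : L × L × L × L =>
    ((w.2.2.2 - w.1) * (w.2.1 - w.2.2.1)) / ((w.2.2.2 - w.2.2.1) * (w.2.1 - w.1))).finite_toSet.subset ?_
  rintro c ⟨x0, h0, x1, h1, x2, h2, x, hx, -, -, -, -, -, rfl⟩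
  exact Finset.mem_coe.2 (Finset.mem_image.2 ⟨(x0, x1, x2, x), by simp [h0, h1, h2, hx], rfl⟩)

open Pool.Agent.W602.GT (coords val IsForm)
open Pool.Agent.Y216 (OnVar)

/-- **Specialisation of the stable set.** -/
theorem main {k L : Type} [Field k] [Field L] [Algebra k L] {d : ℕ} (hd : 1 ≤ d) {p q : L[X]}
    (hp : p.natDegree ≤ d) (hq : q.natDegree = d) (hc : IsCoprime p q) {P : Finset L}
    (hS : Stab p q P) (halg : Algebra.IsAlgebraic (IntermediateField.adjoin k (crs P)) L)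
    {M : ℕ} {x : Fin (M + 1) → L} (hx : x ≠ 0) (hgen : coords k x = ⊤) :
    ∃ (i1 : Fin (M + 1)) (G : MvPolynomial (Fin (M + 1)) k) (D : Fin (M + 1) → ℕ)
      (g : Fin (M + 1) → ℕ → MvPolynomial (crs P) k), IsForm G ∧ val x G ≠ 0 ∧
      ∀ (E : Type) [Field E] [Algebra k E] (f : Fin (M + 1) → E), OnVar k x f → val f G ≠ 0 →
        f i1 ≠ 0 ∧ ∃ (p' q' : E[X]) (P' : Finset E) (c' : crs P → E), p'.natDegree ≤ d ∧
          q'.natDegree = d ∧ IsCoprime p' q' ∧ Stab p' q' P' ∧ P'.card = P.card ∧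
          (∀ c, c' c ∈ crs P') ∧ ∀ i, MvPolynomial.aeval c' (g i (D i)) ≠ 0 ∧
            ∑ j ∈ Finset.range (D i + 1), MvPolynomial.aeval c' (g i j) * (f i / f i1) ^ j = 0 := by
  classical
  obtain ⟨i1, hi1'⟩ := Function.ne_iff.1 hx
  have hi1 : x i1 ≠ 0 := hi1'
  obtain ⟨u, v, huv⟩ := hc
  choose D g hg1 hg2 using fun i => alg_eqn (S := crs P) (halg.isAlgebraic (x i / x i1))
  obtain ⟨H, hH, hspec⟩ := spec (Pool.Agent.TH466.QG.adjoin_norm hgen hi1)
    (Θ := Dat p q u v P ∪ Set.range fun i =>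
      (MvPolynomial.aeval (Subtype.val : crs P → L) (g i (D i)))⁻¹)
    ((dat_finite p q u v P).union (Set.finite_range _))
  refine ⟨i1, MvPolynomial.X i1 * Pool.Agent.TH466.QG.hz i1 H, D, g, ?_, ?_, ?_⟩
  · obtain ⟨e, he⟩ := Pool.Agent.TH466.QG.hz_form i1 H
    exact ⟨1 + e, (MvPolynomial.isHomogeneous_X k i1).mul he⟩
  · change MvPolynomial.aeval x _ ≠ 0
    rw [map_mul, MvPolynomial.aeval_X]
    refine mul_ne_zero hi1 ?_
    change val x _ ≠ 0
    rw [Pool.Agent.TH466.QG.val_hz H hi1]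
    exact mul_ne_zero (pow_ne_zero _ hi1) hH
  intro E _ _ z hz hzR
  change MvPolynomial.aeval z _ ≠ 0 at hzR
  rw [map_mul, MvPolynomial.aeval_X] at hzR
  have hz1 : z i1 ≠ 0 := left_ne_zero_of_mul hzR
  have hzH : MvPolynomial.aeval (fun i => z i / z i1) H ≠ 0 := by
    have h1 : val z (Pool.Agent.TH466.QG.hz i1 H) ≠ 0 := right_ne_zero_of_mul hzR
    rw [Pool.Agent.TH466.QG.val_hz H hz1] at h1
    exact right_ne_zero_of_mul h1
  have hsp : ∀ G : MvPolynomial (Fin (M + 1)) k,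
      MvPolynomial.aeval (fun i => x i / x i1) G = 0 →
      MvPolynomial.aeval (fun i => z i / z i1) G = 0 := by
    intro G hG
    have h1 : val x (Pool.Agent.TH466.QG.hz i1 G) = 0 := by
      rw [Pool.Agent.TH466.QG.val_hz G hi1, hG, mul_zero]
    have h2 := hz.2 _ (Pool.Agent.TH466.QG.hz_form i1 G) h1
    rw [Pool.Agent.TH466.QG.val_hz G hz1] at h2
    exact (mul_eq_zero.1 h2).resolve_left (pow_ne_zero _ hz1)
  obtain ⟨B, _, _, α, β, hα, hxy, hΘ⟩ := hspec E (fun i => z i / z i1) hsp hzH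
  refine ⟨hz1, ?_⟩
  obtain ⟨p', q', P', hp', hq', hc', hS', hcard, hcr⟩ := stab_trans (α : B →+* L) (β : B →+* E) hα
    hd hp hq huv hS (fun a ha => hΘ a (Or.inl ha))
  choose b hb1 hb2 using hcr
  refine ⟨p', q', P', fun c => β (b c.1 c.2), hp', hq', hc', hS', hcard,
    fun c => hb2 c.1 c.2, fun i => ?_⟩
  have hev1 : ∀ G : MvPolynomial (crs P) k,
      α (MvPolynomial.aeval (fun c : crs P => b c.1 c.2) G) =
        MvPolynomial.aeval (Subtype.val : crs P → L) G := by
    intro G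
    rw [← AlgHom.comp_apply, MvPolynomial.comp_aeval]
    congr 1
    congr 1
    funext c
    exact hb1 c.1 c.2
  have hev2 : ∀ G : MvPolynomial (crs P) k,
      β (MvPolynomial.aeval (fun c : crs P => b c.1 c.2) G) =
        MvPolynomial.aeval (fun c : crs P => β (b c.1 c.2)) G := by
    intro G
    rw [← AlgHom.comp_apply, MvPolynomial.comp_aeval]
  constructor
  · rw [← hev2]
    refine unit_ne (α : B →+* L) (β : B →+* E) hα ?_ ?_
    · change α _ ≠ 0
      rw [hev1]
      exact hg1 i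
    · change (α _)⁻¹ ∈ Set.range α
      rw [hev1]
      exact hΘ _ (Or.inr ⟨i, rfl⟩)
  · obtain ⟨w, hw1, hw2⟩ := hxy i
    have h1 : ∑ j ∈ Finset.range (D i + 1),
        MvPolynomial.aeval (fun c : crs P => b c.1 c.2) (g i j) * w ^ j = 0 := by
      apply hα
      rw [map_sum, map_zero, ← hg2 i]
      refine Finset.sum_congr rfl fun j _ => ?_
      rw [map_mul, map_pow, hev1, hw1]
    have h2 := congrArg β h1
    rw [map_sum, map_zero] at h2
    rw [← h2]
    refine Finset.sum_congr rfl fun j _ => ?_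
    rw [map_mul, map_pow, hev2, hw2]

end Pool.Agent.Q209.GT
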