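import Pool.Agent.Q209.GT.Spec

/-!
(A4) Subvarieties of varieties with a large stable set; (A2) degrees of curves.
-/

set_option autoImplicit false

namespace Pool.Agent.Q209.GT

open Polynomial FF
open Pool.Agent.Q41.SU (Stab)
open Pool.Agent.Q41.GT (crs S_gt S_sub S_cvh S_dcb)
open Pool.Agent.W602.GT (coords val IsForm GeneralType)
open Pool.Agent.Y216 (OnVar CurveBound)
open Pool.Agent.W603.LV (hgt canDeg hgt_root hgt_mvpoly)
open Pool.Agent.W603.PV (pht pht_le)

/-- a relation with nonzero leading coefficient -/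
theorem alg_of_eqn {F E : Type} [Field F] [Field E] [Algebra F E] {D : ℕ} {e : ℕ → E} {z : E}
    (he : ∀ j, e j ∈ Set.range (algebraMap F E)) (h0 : e D ≠ 0)
    (h : ∑ j ∈ Finset.range (D + 1), e j * z ^ j = 0) : IsAlgebraic F z := by
  classical
  choose a ha using he
  refine ⟨∑ j ∈ Finset.range (D + 1), Polynomial.C (a j) * Polynomial.X ^ j, ?_, ?_⟩
  · intro h1
    have h2 := congrArg (fun f => Polynomial.coeff f D) h1
    simp only [Polynomial.finsetSum_coeff, Polynomial.coeff_C_mul_X_pow,
      Polynomial.coeff_zero] at h2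
    rw [Finset.sum_eq_single D (fun b _ hb => if_neg hb.symm)
      (fun h => absurd (Finset.mem_range.2 (Nat.lt_succ_self D)) h), if_pos rfl] at h2
    apply h0
    rw [← ha D, h2, map_zero]
  · rw [map_sum, ← h]
    refine Finset.sum_congr rfl fun j _ => ?_
    rw [map_mul, Polynomial.aeval_C, map_pow, Polynomial.aeval_X, ha]

/-- **(A4)** -/
theorem sub (hgt : S_gt) : S_sub := by
  intro d hd
  obtain ⟨B, hB⟩ := hgt d hd
  refine ⟨B, ?_⟩
  intro k L _ _ _ _ _ p q hp hq hc P hS hcard halg M x hx hgen
  obtain ⟨i1, G, D, g, hG, hxG, hmain⟩ := main (by omega) hp hq hc hS halg hx hgen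
  refine ⟨G, hG, hxG, ?_⟩
  intro L' _ _ f t hf hgenf hfG ht htr
  obtain ⟨hf1, p', q', P', c', hp', hq', hc', hS', hcard', hcr, hrel⟩ := hmain L' f hf hfG
  refine hB k L' t ht htr p' q' hp' hq' hc' P' hS' (by rw [hcard']; exact hcard) ?_
  have hz : ∀ i, IsAlgebraic (IntermediateField.adjoin k (crs P')) (f i / f i1) := by
    intro i
    refine alg_of_eqn (fun j => ?_) (hrel i).1 (hrel i).2
    have h1 : MvPolynomial.aeval c' (g i j) ∈ IntermediateField.adjoin k (crs P') := by
      have h2 : MvPolynomial.aeval c' (g i j) ∈ Algebra.adjoin k (Set.range c') := by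
        rw [Algebra.adjoin_range_eq_range_aeval]
        exact ⟨_, rfl⟩
      have h3 : Algebra.adjoin k (Set.range c') ≤
          (IntermediateField.adjoin k (crs P')).toSubalgebra := by
        rw [Algebra.adjoin_le_iff]
        rintro _ ⟨c, rfl⟩
        exact IntermediateField.subset_adjoin k _ (hcr c)
      exact h3 h2
    exact ⟨⟨_, h1⟩, rfl⟩
  have h1 : (⊤ : IntermediateField k L') = IntermediateField.adjoin k
      (Set.range fun i => f i / f i1) := (Pool.Agent.TH466.QG.adjoin_norm hgenf hf1).symm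
  have h2 : IntermediateField.adjoin (IntermediateField.adjoin k (crs P'))
      (Set.range fun i => f i / f i1) = ⊤ := by
    rw [eq_top_iff]
    intro a _
    have h3 : a ∈ IntermediateField.adjoin k (Set.range fun i => f i / f i1) := by
      rw [← h1]
      exact IntermediateField.mem_top
    have h4 : IntermediateField.adjoin k (Set.range fun i => f i / f i1) ≤
        (IntermediateField.adjoin (IntermediateField.adjoin k (crs P'))
          (Set.range fun i => f i / f i1)).restrictScalars k := by
      rw [IntermediateField.adjoin_le_iff]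
      exact IntermediateField.subset_adjoin _ _
    exact h4 h3
  have h3 : Algebra.IsAlgebraic (IntermediateField.adjoin k (crs P'))
      (IntermediateField.adjoin (IntermediateField.adjoin k (crs P'))
        (Set.range fun i => f i / f i1)) :=
    IntermediateField.isAlgebraic_adjoin (by
      rintro _ ⟨i, rfl⟩
      exact (hz i).isIntegral)
  rw [h2] at h3
  exact ⟨fun a => by
    have h4 := h3.isAlgebraic (⟨a, IntermediateField.mem_top⟩ :
      (⊤ : IntermediateField (IntermediateField.adjoin k (crs P')) L'))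
    exact (isAlgebraic_algebraMap_iff (R := IntermediateField.adjoin k (crs P'))
      (algebraMap (⊤ : IntermediateField (IntermediateField.adjoin k (crs P')) L') L').injective).2 h4⟩

/-- **(A2)** -/
theorem dcb (hcvh : S_cvh) : S_dcb := by
  classical
  intro d hd
  obtain ⟨B, hB⟩ := hcvh d hd
  refine ⟨B, ?_⟩
  intro k L _ _ _ _ _ p q hp hq hc P hS hcard halg M x hx hgen
  obtain ⟨C, hC⟩ := hB P.card hcard
  obtain ⟨i1, G, D, g, hG, hxG, hmain⟩ := main (by omega) hp hq hc hS halg hx hgen
  have : Fintype (crs P) := (crs_finite P).fintype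
  obtain ⟨A, hA⟩ : ∃ A : ℕ, A = ∑ i, ∑ j ∈ Finset.range (D i + 1),
    (g i j).totalDegree * (Fintype.card (crs P) * C) := ⟨_, rfl⟩
  refine ⟨G, hG, hxG, A, ?_⟩
  intro K _ _ _ f hf hfG
  obtain ⟨hf1, p', q', P', c', hp', hq', hc', hS', hcard', hcr, hrel⟩ := hmain K f hf hfG
  set χ : ℤ := max (canDeg k K) 0 with hχ
  have hχ0 : 0 ≤ χ := le_max_right _ _
  have h1 : ∀ c, hgt k (c' c) ≤ C * χ := fun c => hC k K p' q' hp' hq' hc' P' hS' hcard' _ (hcr c)
  have h2 : ∀ i j, hgt k (MvPolynomial.aeval c' (g i j)) ≤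
      ((g i j).totalDegree * (Fintype.card (crs P) * C) : ℕ) * χ := by
    intro i j
    refine (hgt_mvpoly (k := k) c' (g i j)).trans ?_
    have h3 : ∑ c, hgt k (c' c) ≤ ((Fintype.card (crs P) : ℕ) : ℤ) * (C * χ) := by
      refine (Finset.sum_le_sum fun c _ => h1 c).trans (le_of_eq ?_)
      rw [Finset.sum_const, Finset.card_univ, nsmul_eq_mul]
    refine (mul_le_mul_of_nonneg_left h3 (Nat.cast_nonneg (α := ℤ) (g i j).totalDegree)).trans
      (le_of_eq ?_)
    push_cast
    ring
  have h4 : ∀ i, hgt k (f i / f i1) ≤ (∑ j ∈ Finset.range (D i + 1),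
      (g i j).totalDegree * (Fintype.card (crs P) * C) : ℕ) * χ := by
    intro i
    refine (hgt_root (k := k) (fun j => MvPolynomial.aeval c' (g i j)) (hrel i).1 _
      (hrel i).2).trans ?_
    rw [add_comm, ← Finset.sum_range_succ (fun j => hgt k (MvPolynomial.aeval c' (g i j)))]
    refine (Finset.sum_le_sum fun j _ => h2 i j).trans (le_of_eq ?_)
    rw [← Finset.sum_mul]
    push_cast
    rfl
  refine (pht_le (k := k) f hf1).trans ((Finset.sum_le_sum fun j _ => h4 j).trans (le_of_eq ?_))
  rw [← Finset.sum_mul, hA]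
  push_cast
  rfl

end Pool.Agent.Q209.GT
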